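import Pool.Agent.C1E.Contr2
import Pool.Agent.C1E.Konig

/-!
# Covers from matchings of the full graph

The full graph has the nodes `(b, C)`, `(b, D)` for the outer vertices `b`, the nodes `(s, C)`,
`(s, D)` for the inner vertices `s`, and the edge `(s, C) -- (ng s, D)` for `pos s`.
-/

set_option linter.unusedSectionVars false

namespace C1F

open Finset C1E

variable {ι : Type} [Fintype ι] [DecidableEq ι]

/-- a matching of the full graph: outer vertices are matched with inner vertices, the relation `MC`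
is for the role up and `MD` for the role down -/
structure FMat (x y : ι → ℝ) (A : ℝ) (MC MD : (ι → Bool) → (ι → Bool) → Prop) : Prop where
  c : ∀ {b s}, MC b s → A < val x b ∧ val x s < A ∧ 0 < ht x y A b s ∧ ∃ a, flp b a = s
  d : ∀ {b s}, MD b s → A < val x b ∧ val x s < A ∧ ht x y A b s < 0 ∧ ∃ a, flp b a = s
  c1 : ∀ {b s s'}, MC b s → MC b s' → s = s'
  c2 : ∀ {b b' s}, MC b s → MC b' s → b = b'
  d1 : ∀ {b s s'}, MD b s → MD b s' → s = s'
  d2 : ∀ {b b' s}, MD b s → MD b' s → b = b'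

/-- an arc: both ends of the inner pair `s`, `ng s` are matched -/
def Arc (pos : (ι → Bool) → Prop) (MC MD : (ι → Bool) → (ι → Bool) → Prop)
    (b c : ι → Bool) : Prop := ∃ s, pos s ∧ MC b s ∧ MD c (ng s)

/-- a loop of the role up -/
def UL (pos : (ι → Bool) → Prop) (MC : (ι → Bool) → (ι → Bool) → Prop) (b : ι → Bool) : Prop :=
  ∃ s, MC b s ∧ ¬ pos s

/-- a loop of the role down -/
def DL (pos : (ι → Bool) → Prop) (MD : (ι → Bool) → (ι → Bool) → Prop) (b : ι → Bool) : Prop :=
  ∃ s, MD b s ∧ pos s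

section

variable {x y : ι → ℝ} {A : ℝ} {pos : (ι → Bool) → Prop}
  {MC MD : (ι → Bool) → (ι → Bool) → Prop}

theorem FMat.lk (h : FMat x y A MC MD) {b c : ι → Bool} (hb : Arc pos MC MD b c) :
    Lk x y A pos b c := by
  obtain ⟨s, h1, h2, h3⟩ := hb
  obtain ⟨b1, b2, b3, j, b4⟩ := h.c h2
  obtain ⟨c1, c2, c3, k, c4⟩ := h.d h3
  exact ⟨b1, c1, j, k, by rw [b4]; exact b2, by rw [b4]; exact b3, by rw [b4]; exact h1,
    by rw [c4]; exact c2, by rw [c4]; exact c3, by rw [c4, b4]⟩

theorem FMat.fu (h : FMat x y A MC MD) {b : ι → Bool} (hb : UL pos MC b) :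
    FU x y A pos b := by
  obtain ⟨s, h1, h2⟩ := hb
  obtain ⟨b1, b2, b3, j, b4⟩ := h.c h1
  exact ⟨b1, j, by rw [b4]; exact b2, by rw [b4]; exact b3, by rw [b4]; exact h2⟩

theorem FMat.fd (h : FMat x y A MC MD) {b : ι → Bool} (hb : DL pos MD b) :
    FD x y A pos b := by
  obtain ⟨s, h1, h2⟩ := hb
  obtain ⟨b1, b2, b3, j, b4⟩ := h.d h1
  exact ⟨b1, j, by rw [b4]; exact b2, by rw [b4]; exact b3, by rw [b4]; exact h2⟩

theorem FMat.out (h : FMat x y A MC MD) {b c c' : ι → Bool} (h1 : Arc pos MC MD b c)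
    (h2 : Arc pos MC MD b c') : c = c' := by
  obtain ⟨s, _, h3, h4⟩ := h1
  obtain ⟨s', _, h5, h6⟩ := h2
  obtain rfl := h.c1 h3 h5
  exact h.d2 h4 h6

theorem FMat.inn (h : FMat x y A MC MD) {b b' c : ι → Bool} (h1 : Arc pos MC MD b c)
    (h2 : Arc pos MC MD b' c) : b = b' := by
  obtain ⟨s, _, h3, h4⟩ := h1
  obtain ⟨s', _, h5, h6⟩ := h2
  have h7 := h.d1 h4 h6
  have h8 : s = s' := by rw [← ng_ng s, h7, ng_ng]
  subst h8
  exact h.c2 h3 h5

theorem FMat.nu (h : FMat x y A MC MD) {b c : ι → Bool} (h1 : Arc pos MC MD b c) :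
    ¬ UL pos MC b := by
  rintro ⟨s, h2, h3⟩
  obtain ⟨s', h4, h5, _⟩ := h1
  obtain rfl := h.c1 h2 h5
  exact h3 h4

theorem FMat.nd (hp : IsSign y pos) (h : FMat x y A MC MD) {b c : ι → Bool}
    (h1 : Arc pos MC MD b c) : ¬ DL pos MD c := by
  rintro ⟨s, h2, h3⟩
  obtain ⟨s', h4, _, h5⟩ := h1
  obtain rfl := h.d1 h2 h5
  exact (hp.2 s').1 h3 h4

/-- each inner vertex serves at most one loop of each kind -/
theorem FMat.ul_inj (h : FMat x y A MC MD) {b b' s : ι → Bool} (h1 : MC b s) (h2 : MC b' s) :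
    b = b' := h.c2 h1 h2

end

/-- the edges of the full graph: on the left side are the nodes `(b, C)` of the outer vertices and
the nodes `(s, D)` of the inner vertices, on the right side the others -/
def Ed (x y : ι → ℝ) (A : ℝ) (pos : (ι → Bool) → Prop) (v w : ι → Bool) : Prop :=
  (A < val x v ∧ |val x w| < A ∧ 0 < ht x y A v w ∧ ∃ a, flp v a = w) ∨
  (A < val x w ∧ |val x v| < A ∧ ht x y A w v < 0 ∧ ∃ a, flp w a = v) ∨
  (|val x w| < A ∧ pos w ∧ v = ng w)

theorem inner_not_outer {x : ι → ℝ} {A : ℝ} {s : ι → Bool} (h : |val x s| < A) :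
    ¬ A < val x s := by
  intro h1
  have := (abs_lt.1 h).2
  linarith

/-- the number of edges of a matching of the full graph -/
theorem matching_card (x y : ι → ℝ) {A : ℝ} {pos : (ι → Bool) → Prop} (hp : IsSign y pos)
    (h : ∀ MC MD : (ι → Bool) → (ι → Bool) → Prop, FMat x y A MC MD →
      ∀ Ar U D : Finset (ι → Bool), (∀ b, b ∈ Ar ↔ ∃ c, Arc pos MC MD b c) →
      (∀ b, b ∈ U ↔ UL pos MC b) → (∀ b, b ∈ D ↔ DL pos MD b) →
      Ar.card + U.card + D.card ≤ (univ.filter fun s => A < val x s).card)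
    (IP : Finset (ι → Bool)) (hIP : ∀ s, s ∈ IP ↔ |val x s| < A ∧ pos s)
    (E : Finset ((ι → Bool) × (ι → Bool))) (hE : ∀ p ∈ E, Ed x y A pos p.1 p.2)
    (h1 : ∀ p ∈ E, ∀ q ∈ E, p.1 = q.1 → p = q) (h2 : ∀ p ∈ E, ∀ q ∈ E, p.2 = q.2 → p = q) :
    E.card ≤ (univ.filter fun s => A < val x s).card + IP.card := by
  classical
  set MC : (ι → Bool) → (ι → Bool) → Prop := fun b s => (b, s) ∈ E ∧ A < val x b with hMC
  set MD : (ι → Bool) → (ι → Bool) → Prop := fun b s => (s, b) ∈ E ∧ A < val x b with hMD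
  have cE : ∀ {b s}, MC b s → A < val x b ∧ |val x s| < A ∧ 0 < ht x y A b s ∧
      ∃ a, flp b a = s := by
    rintro b s ⟨h3, h4⟩
    rcases hE _ h3 with h5 | h5 | h5
    · exact h5
    · exact absurd h4 (inner_not_outer h5.2.1)
    · refine absurd h4 (inner_not_outer ?_)
      have h6 : b = ng s := h5.2.2
      rw [h6, val_ng, abs_neg]
      exact h5.1
  have dE : ∀ {b s}, MD b s → A < val x b ∧ |val x s| < A ∧ ht x y A b s < 0 ∧
      ∃ a, flp b a = s := by
    rintro b s ⟨h3, h4⟩
    rcases hE _ h3 with h5 | h5 | h5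
    · exact absurd h4 (inner_not_outer h5.2.1)
    · exact h5
    · exact absurd h4 (inner_not_outer h5.1)
  have hF : FMat x y A MC MD :=
    { c := fun {b s} h3 => ⟨(cE h3).1, (abs_lt.1 (cE h3).2.1).2, (cE h3).2.2⟩
      d := fun {b s} h3 => ⟨(dE h3).1, (abs_lt.1 (dE h3).2.1).2, (dE h3).2.2⟩
      c1 := fun {b s s'} h3 h4 => by
        have := h1 _ h3.1 _ h4.1 rfl
        exact (Prod.mk.injEq _ _ _ _ ▸ this).2
      c2 := fun {b b' s} h3 h4 => by
        have := h2 _ h3.1 _ h4.1 rfl
        exact (Prod.mk.injEq _ _ _ _ ▸ this).1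
      d1 := fun {b s s'} h3 h4 => by
        have := h2 _ h3.1 _ h4.1 rfl
        exact (Prod.mk.injEq _ _ _ _ ▸ this).1
      d2 := fun {b b' s} h3 h4 => by
        have := h1 _ h3.1 _ h4.1 rfl
        exact (Prod.mk.injEq _ _ _ _ ▸ this).2 }
  set Ar : Finset (ι → Bool) := univ.filter fun b => ∃ c, Arc pos MC MD b c with hAr
  set U : Finset (ι → Bool) := univ.filter fun b => UL pos MC b with hU
  set D : Finset (ι → Bool) := univ.filter fun b => DL pos MD b with hD
  have h3 := h MC MD hF Ar U D (fun b => by simp [hAr]) (fun b => by simp [hU])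
    (fun b => by simp [hD])
  -- the pieces of `E`
  set E1 := E.filter fun p => A < val x p.1 ∧ pos p.2 with hE1
  set E2 := E.filter fun p => A < val x p.1 ∧ ¬ pos p.2 with hE2
  set E3 := E.filter fun p => A < val x p.2 ∧ pos p.1 with hE3
  set E4 := E.filter fun p => A < val x p.2 ∧ ¬ pos p.1 with hE4
  set E5 := E.filter fun p => ¬ A < val x p.1 ∧ ¬ A < val x p.2 with hE5
  have hsub : E ⊆ ((E1 ∪ E2) ∪ (E3 ∪ E4)) ∪ E5 := by
    intro p hp'
    by_cases a1 : A < val x p.1
    · by_cases a2 : pos p.2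
      · exact mem_union_left _ (mem_union_left _ (mem_union_left _
          (mem_filter.2 ⟨hp', a1, a2⟩)))
      · exact mem_union_left _ (mem_union_left _ (mem_union_right _
          (mem_filter.2 ⟨hp', a1, a2⟩)))
    · by_cases a2 : A < val x p.2
      · by_cases a3 : pos p.1
        · exact mem_union_left _ (mem_union_right _ (mem_union_left _
            (mem_filter.2 ⟨hp', a2, a3⟩)))
        · exact mem_union_left _ (mem_union_right _ (mem_union_right _
            (mem_filter.2 ⟨hp', a2, a3⟩)))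
      · exact mem_union_right _ (mem_filter.2 ⟨hp', a1, a2⟩)
  have hc1 : E.card ≤ E1.card + E2.card + (E3.card + E4.card) + E5.card := by
    refine (card_le_card hsub).trans ((card_union_le _ _).trans ?_)
    have a1 := card_union_le (E1 ∪ E2) (E3 ∪ E4)
    have a2 := card_union_le E1 E2
    have a3 := card_union_le E3 E4
    omega
  have hc2 : E2.card ≤ U.card := by
    refine card_le_card_of_injOn Prod.fst (fun p hp' => ?_) (fun p hp' q hq' he => ?_)
    · obtain ⟨a1, a2, a3⟩ := mem_filter.1 (mem_coe.1 hp')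
      exact mem_coe.2 (mem_filter.2 ⟨mem_univ _, p.2, ⟨a1, a2⟩, a3⟩)
    · exact h1 p (mem_filter.1 (mem_coe.1 hp')).1 q (mem_filter.1 (mem_coe.1 hq')).1 he
  have hc3 : E3.card ≤ D.card := by
    refine card_le_card_of_injOn Prod.snd (fun p hp' => ?_) (fun p hp' q hq' he => ?_)
    · obtain ⟨a1, a2, a3⟩ := mem_filter.1 (mem_coe.1 hp')
      exact mem_coe.2 (mem_filter.2 ⟨mem_univ _, p.1, ⟨a1, a2⟩, a3⟩)
    · exact h2 p (mem_filter.1 (mem_coe.1 hp')).1 q (mem_filter.1 (mem_coe.1 hq')).1 he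
  -- the inner pairs
  set S1 := E1.image Prod.snd with hS1
  set S4 := E4.image fun p => ng p.1 with hS4
  set S5 := E5.image Prod.snd with hS5
  have c1 : S1.card = E1.card := card_image_of_injOn fun p hp' q hq' he =>
    h2 p (mem_filter.1 (mem_coe.1 hp')).1 q (mem_filter.1 (mem_coe.1 hq')).1 he
  have c4 : S4.card = E4.card := card_image_of_injOn fun p hp' q hq' he =>
    h1 p (mem_filter.1 (mem_coe.1 hp')).1 q (mem_filter.1 (mem_coe.1 hq')).1 (by
      have he' : ng p.1 = ng q.1 := he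
      rw [← ng_ng p.1, he', ng_ng])
  have c5 : S5.card = E5.card := card_image_of_injOn fun p hp' q hq' he =>
    h2 p (mem_filter.1 (mem_coe.1 hp')).1 q (mem_filter.1 (mem_coe.1 hq')).1 he
  have m5 : ∀ p ∈ E5, |val x p.2| < A ∧ pos p.2 ∧ p.1 = ng p.2 := by
    intro p hp'
    obtain ⟨a1, a2, a3⟩ := mem_filter.1 hp'
    rcases hE p a1 with a4 | a4 | a4
    · exact absurd a4.1 a2
    · exact absurd a4.1 a3
    · exact a4
  have s1 : S1 ⊆ IP := by
    intro s hs
    obtain ⟨p, hp', rfl⟩ := mem_image.1 hs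
    obtain ⟨a1, a2, a3⟩ := mem_filter.1 hp'
    exact (hIP _).2 ⟨(cE ⟨a1, a2⟩).2.1, a3⟩
  have s4 : S4 ⊆ IP := by
    intro s hs
    obtain ⟨p, hp', rfl⟩ := mem_image.1 hs
    obtain ⟨a1, a2, a3⟩ := mem_filter.1 hp'
    refine (hIP _).2 ⟨?_, (hp.2 _).2 a3⟩
    rw [val_ng, abs_neg]
    exact (dE ⟨a1, a2⟩).2.1
  have s5 : S5 ⊆ IP := by
    intro s hs
    obtain ⟨p, hp', rfl⟩ := mem_image.1 hs
    obtain ⟨a1, a2, a3⟩ := m5 p hp'
    exact (hIP _).2 ⟨a1, a2⟩
  have d5 : Disjoint (S1 ∪ S4) S5 := by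
    rw [disjoint_left]
    intro s hs hs'
    obtain ⟨q, hq, hq2⟩ := mem_image.1 hs'
    have hq3 := m5 q hq
    have hqE := (mem_filter.1 hq).1
    rcases mem_union.1 hs with hs | hs
    · obtain ⟨p, hp', hp2⟩ := mem_image.1 hs
      have a1 := mem_filter.1 hp'
      have a2 := h2 p a1.1 q hqE (hp2.trans hq2.symm)
      rw [a2] at a1
      exact (mem_filter.1 hq).2.1 a1.2.1
    · obtain ⟨p, hp', hp2⟩ := mem_image.1 hs
      have a1 := mem_filter.1 hp'
      have a2 := h1 p a1.1 q hqE (by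
        rw [hq3.2.2, hq2, ← hp2, ng_ng])
      rw [a2] at a1
      exact (mem_filter.1 hq).2.2 a1.2.1
  have i14 : (S1 ∩ S4).card ≤ Ar.card := by
    have hex : ∀ s ∈ S1 ∩ S4, ∃ b, MC b s ∧ b ∈ Ar := by
      intro s hs
      obtain ⟨a1, a2⟩ := mem_inter.1 hs
      obtain ⟨p, hp', hp2⟩ := mem_image.1 a1
      obtain ⟨q, hq', hq2⟩ := mem_image.1 a2
      obtain ⟨b1, b2, b3⟩ := mem_filter.1 hp'
      obtain ⟨b4, b5, b6⟩ := mem_filter.1 hq'
      have hMp : MC p.1 s := by rw [← hp2]; exact ⟨b1, b2⟩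
      refine ⟨p.1, hMp, mem_filter.2 ⟨mem_univ _, q.2, s, by rw [← hp2]; exact b3, hMp, ?_⟩⟩
      have e1 : ng s = q.1 := by rw [← hq2]; exact ng_ng _
      rw [e1]
      exact ⟨b4, b5⟩
    choose! f hf using hex
    refine card_le_card_of_injOn f (fun s hs => mem_coe.2 (hf s (mem_coe.1 hs)).2)
      (fun s hs s' hs' he => ?_)
    have e1 := (hf s (mem_coe.1 hs)).1
    have e2 := (hf s' (mem_coe.1 hs')).1
    rw [he] at e1
    exact hF.c1 e1 e2
  have hc4 : S1.card + S4.card = (S1 ∪ S4).card + (S1 ∩ S4).card :=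
    (card_union_add_card_inter S1 S4).symm
  have hc5 : ((S1 ∪ S4) ∪ S5).card ≤ IP.card :=
    card_le_card (union_subset (union_subset s1 s4) s5)
  rw [card_union_of_disjoint d5] at hc5
  omega

/-- a cover of the full graph gives a good pair -/
theorem full_cover (x y : ι → ℝ) {A : ℝ} (hA0 : 0 < A) (hA : ∀ a, |x a| ≤ A)
    {pos : (ι → Bool) → Prop} (hp : IsSign y pos)
    (h : ∀ MC MD : (ι → Bool) → (ι → Bool) → Prop, FMat x y A MC MD →
      ∀ Ar U D : Finset (ι → Bool), (∀ b, b ∈ Ar ↔ ∃ c, Arc pos MC MD b c) →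
      (∀ b, b ∈ U ↔ UL pos MC b) → (∀ b, b ∈ D ↔ DL pos MD b) →
      Ar.card + U.card + D.card ≤ (univ.filter fun s => A < val x s).card) :
    ∃ C D : Finset (ι → Bool), 2 * (C.card + D.card) ≤ 2 ^ Fintype.card ι ∧ Good x y A C D := by
  classical
  set O : Finset (ι → Bool) := univ.filter fun s => A < val x s with hO
  set IP : Finset (ι → Bool) := univ.filter fun s => |val x s| < A ∧ pos s with hIP
  set EQ : Finset (ι → Bool) := univ.filter fun s => val x s = A with hEQ
  obtain ⟨Cx, Dy, hcov, hcard⟩ := konig (Ed x y A pos) (O.card + IP.card) (fun E hE h1 h2 =>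
    matching_card x y hp h IP (fun s => by simp [hIP]) E hE h1 h2)
  set C : Finset (ι → Bool) := (Cx.filter (fun s => A < val x s) ∪
    Dy.filter (fun s => |val x s| < A)) ∪ EQ.filter pos with hC
  set D : Finset (ι → Bool) := (Dy.filter (fun s => A < val x s) ∪
    Cx.filter (fun s => |val x s| < A)) ∪ EQ.filter (fun s => ¬ pos s) with hD
  have memC : ∀ s, s ∈ C ↔ (s ∈ Cx ∧ A < val x s) ∨ (s ∈ Dy ∧ |val x s| < A) ∨
      (val x s = A ∧ pos s) := fun s => by
    simp only [hC, hEQ, mem_union, mem_filter, mem_univ, true_and, or_assoc]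
  have memD : ∀ s, s ∈ D ↔ (s ∈ Dy ∧ A < val x s) ∨ (s ∈ Cx ∧ |val x s| < A) ∨
      (val x s = A ∧ ¬ pos s) := fun s => by
    simp only [hD, hEQ, mem_union, mem_filter, mem_univ, true_and, or_assoc]
  -- counting
  have hcount : 2 * (C.card + D.card) ≤ 2 ^ Fintype.card ι := by
    have e1 : (Cx.filter (fun s => A < val x s)).card + (Cx.filter (fun s => |val x s| < A)).card ≤
        Cx.card := by
      rw [← card_union_of_disjoint]
      · exact card_le_card (union_subset (filter_subset _ _) (filter_subset _ _))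
      · rw [disjoint_left]
        intro s hs hs'
        exact inner_not_outer (mem_filter.1 hs').2 (mem_filter.1 hs).2
    have e2 : (Dy.filter (fun s => A < val x s)).card + (Dy.filter (fun s => |val x s| < A)).card ≤
        Dy.card := by
      rw [← card_union_of_disjoint]
      · exact card_le_card (union_subset (filter_subset _ _) (filter_subset _ _))
      · rw [disjoint_left]
        intro s hs hs'
        exact inner_not_outer (mem_filter.1 hs').2 (mem_filter.1 hs).2
    have e3 : (EQ.filter pos).card + (EQ.filter (fun s => ¬ pos s)).card = EQ.card :=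
      card_filter_add_card_filter_not _
    have e4 : C.card ≤ (Cx.filter (fun s => A < val x s)).card +
        (Dy.filter (fun s => |val x s| < A)).card + (EQ.filter pos).card :=
      (card_union_le _ _).trans (Nat.add_le_add_right (card_union_le _ _) _)
    have e5 : D.card ≤ (Dy.filter (fun s => A < val x s)).card +
        (Cx.filter (fun s => |val x s| < A)).card + (EQ.filter (fun s => ¬ pos s)).card :=
      (card_union_le _ _).trans (Nat.add_le_add_right (card_union_le _ _) _)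
    have dOI : Disjoint O IP := by
      rw [disjoint_left]
      intro s hs hs'
      exact inner_not_outer (mem_filter.1 hs').2.1 (mem_filter.1 hs).2
    have dE : Disjoint (O ∪ IP) EQ := by
      rw [disjoint_left]
      intro s hs hs'
      have h1 := (mem_filter.1 hs').2
      rcases mem_union.1 hs with h2 | h2
      · exact absurd h1 (mem_filter.1 h2).2.ne'
      · have := (abs_lt.1 (mem_filter.1 h2).2.1).2
        linarith
    set W := (O ∪ IP) ∪ EQ with hW
    have hallW : ∀ s ∈ W, A ≤ val x s ∨ (|val x s| < A ∧ pos s) := by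
      intro s hs
      rcases mem_union.1 hs with h1 | h1
      · rcases mem_union.1 h1 with h1 | h1
        · exact Or.inl (mem_filter.1 h1).2.le
        · exact Or.inr (mem_filter.1 h1).2
      · exact Or.inl (mem_filter.1 h1).2.ge
    have hdisj2 : Disjoint W (W.image ng) := by
      rw [disjoint_left]
      intro s hs hs'
      obtain ⟨t, ht1, ht2⟩ := mem_image.1 hs'
      have h1 := hallW s hs
      have h2 := hallW t ht1
      subst ht2
      rcases h1 with h1 | ⟨h1, h1'⟩ <;> rcases h2 with h2 | ⟨h2, h2'⟩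
      · rw [val_ng] at h1; linarith
      · rw [val_ng] at h1; linarith [(abs_lt.1 h2).1]
      · rw [val_ng, abs_neg] at h1; linarith [(abs_lt.1 h1).2]
      · exact (hp.2 t).1 h1' h2'
    have hinj2 : (W.image ng).card = W.card :=
      card_image_of_injective _ fun s s' h => by rw [← ng_ng s, h, ng_ng]
    have h2 : (W ∪ W.image ng).card ≤ 2 ^ Fintype.card ι := by
      refine (card_le_univ _).trans ?_
      rw [Fintype.card_fun, Fintype.card_bool]
    rw [card_union_of_disjoint hdisj2, hinj2, hW, card_union_of_disjoint dE,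
      card_union_of_disjoint dOI] at h2
    omega
  -- the cover property
  have cov1 : ∀ b a, A < val x b → val x (flp b a) < A → 0 < ht x y A b (flp b a) →
      b ∈ C ∨ flp b a ∈ C := by
    intro b a hb hq hh
    have hq' : |val x (flp b a)| < A := abs_lt.2 ⟨val_flp_gt hA hb, hq⟩
    rcases hcov b (flp b a) (Or.inl ⟨hb, hq', hh, a, rfl⟩) with h1 | h1
    · exact Or.inl ((memC b).2 (Or.inl ⟨h1, hb⟩))
    · exact Or.inr ((memC _).2 (Or.inr (Or.inl ⟨h1, hq'⟩)))
  have cov2 : ∀ b a, A < val x b → val x (flp b a) < A → ht x y A b (flp b a) < 0 →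
      b ∈ D ∨ flp b a ∈ D := by
    intro b a hb hq hh
    have hq' : |val x (flp b a)| < A := abs_lt.2 ⟨val_flp_gt hA hb, hq⟩
    rcases hcov (flp b a) b (Or.inr (Or.inl ⟨hb, hq', hh, a, rfl⟩)) with h1 | h1
    · exact Or.inr ((memD _).2 (Or.inr (Or.inl ⟨h1, hq'⟩)))
    · exact Or.inl ((memD b).2 (Or.inl ⟨h1, hb⟩))
  have hmid : ∀ s, |val x s| < A → pos s → s ∈ C ∨ ng s ∈ D := by
    intro s hs hps
    rcases hcov (ng s) s (Or.inr (Or.inr ⟨hs, hps, rfl⟩)) with h1 | h1
    · exact Or.inr ((memD _).2 (Or.inr (Or.inl ⟨h1, by rw [val_ng, abs_neg]; exact hs⟩)))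
    · exact Or.inl ((memC _).2 (Or.inr (Or.inl ⟨h1, hs⟩)))
  refine ⟨C, D, hcount, fun u hu hx hy => ?_, fun u hu hx hy => ?_, fun u hu hx hy => ?_⟩
  · rcases edge_lemma' x y A u hu hx hy with ⟨s, h1, h2, h3⟩ | ⟨b, a, h1, h2, h3, h4, h5⟩
    · exact ⟨s, (memC s).2 (Or.inr (Or.inr ⟨h2, hp.1 s h3⟩)), h1⟩
    · rcases cov1 b a h4 h3 h5 with h | h
      · exact ⟨b, h, h1⟩
      · exact ⟨_, h, h2⟩
  · rcases edge_lemma' x (fun a => - y a) A u hu hx (by
      simp only [neg_mul, Finset.sum_neg_distrib]; linarith) with ⟨s, h1, h2, h3⟩ |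
      ⟨b, a, h1, h2, h3, h4, h5⟩
    · rw [val_neg_left] at h3
      refine ⟨s, (memD s).2 (Or.inr (Or.inr ⟨h2, fun h => ?_⟩)), h1⟩
      have := hp.nonneg h
      linarith
    · rw [ht_neg] at h5
      rcases cov2 b a h4 h3 (by linarith) with h | h
      · exact ⟨b, h, h1⟩
      · exact ⟨_, h, h2⟩
  · set A0 := ∑ a, x a * u a with hA0'
    have hA1 := abs_lt.1 hx
    rcases edge_lemma' x y A0 u hu rfl hy with ⟨s, h1, h2, h3⟩ | ⟨b, a, h1, h2, h3, h4, h5⟩
    · exact ⟨s, hmid s (by rw [h2]; exact hx) (hp.1 s h3), h1⟩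
    · set q := flp b a with hq
      have hgap : val x b - val x q ≤ 2 * A := by
        rw [hq, val_flp]
        have h1 : x a * sg (b a) ≤ A := by
          refine (le_abs_self _).trans ?_
          rw [abs_mul, abs_sg, mul_one]
          exact hA a
        linarith
      unfold ht at h5
      by_cases hyb : 0 < val y b
      · rcases lt_trichotomy (val x b) A with hb | hb | hb
        · exact ⟨b, hmid b (abs_lt.2 ⟨by linarith, hb⟩) (hp.1 b hyb), h1⟩
        · exact ⟨b, Or.inl ((memC b).2 (Or.inr (Or.inr ⟨hb, hp.1 b hyb⟩))), h1⟩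
        · have hq1 : |val x q| < A := abs_lt.2 ⟨by linarith, by linarith⟩
          by_cases hpq : pos q
          · exact ⟨q, hmid q hq1 hpq, h2⟩
          · have hyq := hp.nonpos hpq
            rcases cov1 b a hb (by rw [← hq]; linarith) (by
              rw [← hq]
              unfold ht
              nlinarith) with h | h
            · exact ⟨b, Or.inl h, h1⟩
            · exact ⟨q, Or.inl h, h2⟩
      · push Not at hyb
        have hyq : 0 < val y q := by
          by_contra hc
          push Not at hc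
          nlinarith
        rcases lt_trichotomy (val x q) (-A) with hb | hb | hb
        · have hb1 : |val x b| < A := abs_lt.2 ⟨by linarith, by linarith⟩
          by_cases hpb : pos b
          · exact ⟨b, hmid b hb1 hpb, h1⟩
          · have e : flp (ng q) a = ng b := by rw [hq, ng_flp, flp_flp]
            rcases cov2 (ng q) a (by rw [val_ng]; linarith) (by rw [e, val_ng]; linarith) (by
              rw [e]
              unfold ht
              rw [val_ng, val_ng, val_ng, val_ng]
              nlinarith) with h | h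
            · exact ⟨q, Or.inr h, h2⟩
            · rw [e] at h
              exact ⟨b, Or.inr h, h1⟩
        · refine ⟨q, Or.inr ((memD _).2 (Or.inr (Or.inr ⟨by rw [val_ng]; linarith,
            fun h => ?_⟩))), h2⟩
          exact (hp.2 q).1 h (hp.1 q hyq)
        · exact ⟨q, hmid q (abs_lt.2 ⟨hb, by linarith⟩) (hp.1 q hyq), h2⟩

end C1F
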